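import Pool.Agent.W455.EM.Stm

/-!
# EM-QNT: the quantile shift
-/

set_option autoImplicit false

namespace Pool.Agent.W160.EM.QNT

open Finset Pool.Agent.W455.EM

/-- a quantile -/
theorem quantile {n : ℕ} (W : Finset (Fin n)) (y : Fin n → ℝ) (β : ℝ) (hW : W.Nonempty)
    (hβ : 0 < β) (hβ1 : β ≤ 1) (hy : ∀ v, 0 ≤ y v) : ∃ m0 : ℝ, 0 ≤ m0 ∧
      β / 2 * (W.card : ℝ) ≤ ((W.filter (fun v => y v ≤ m0)).card : ℝ) ∧
      ((W.filter (fun v => y v < m0)).card : ℝ) ≤ β / 2 * (W.card : ℝ) := by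
  classical
  have hm : (0 : ℝ) < W.card := by exact_mod_cast hW.card_pos
  obtain ⟨T, hT⟩ : ∃ T : Finset ℝ, T = (W.image y).filter (fun t =>
    β / 2 * (W.card : ℝ) ≤ ((W.filter (fun v => y v ≤ t)).card : ℝ)) := ⟨_, rfl⟩
  obtain ⟨v1, hv1, hmax⟩ := W.exists_max_image y hW
  have hTne : T.Nonempty := by
    refine ⟨y v1, ?_⟩
    rw [hT, mem_filter]
    refine ⟨mem_image_of_mem y hv1, ?_⟩
    rw [filter_true_of_mem (fun v hv => hmax v hv)]
    nlinarith
  have h1 := T.min'_mem hTne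
  obtain ⟨m0, hm0⟩ : ∃ m0, m0 = T.min' hTne := ⟨_, rfl⟩
  have h2 : ∀ t ∈ T, m0 ≤ t := fun t ht => by rw [hm0]; exact T.min'_le t ht
  rw [← hm0, hT, mem_filter, mem_image] at h1
  obtain ⟨⟨v2, _, hv2⟩, h3⟩ := h1
  refine ⟨m0, by rw [← hv2]; exact hy v2, h3, ?_⟩
  by_contra hcon
  push Not at hcon
  have hne : (W.filter (fun v => y v < m0)).Nonempty := by
    rw [← card_pos]
    have h4 : (0 : ℝ) < ((W.filter (fun v => y v < m0)).card : ℝ) :=
      lt_of_le_of_lt (by positivity) hcon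
    exact_mod_cast h4
  obtain ⟨v3, hv3, hmax3⟩ := (W.filter (fun v => y v < m0)).exists_max_image y hne
  have h5 : y v3 ∈ T := by
    rw [hT, mem_filter]
    refine ⟨mem_image_of_mem y (mem_filter.mp hv3).1, hcon.le.trans ?_⟩
    have h6 : W.filter (fun v => y v < m0) ⊆ W.filter (fun v => y v ≤ y v3) := by
      intro v hv
      exact mem_filter.mpr ⟨(mem_filter.mp hv).1, hmax3 v hv⟩
    exact_mod_cast card_le_card h6
  exact absurd (h2 _ h5) (not_le.mpr (mem_filter.mp hv3).2)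

theorem main : S_QNT := by
  intro k n W y β hk hW hβ hβ1 hy hsum
  have hm : (0 : ℝ) < W.card := by exact_mod_cast hW.card_pos
  have hk' : (0 : ℝ) < k := by exact_mod_cast hk
  obtain ⟨m0, hm0, hqa, hqb⟩ := quantile W y β hW hβ hβ1 hy
  have hcard : ((W.filter (fun v => y v < m0)).card : ℝ) +
      ((W.filter (fun v => ¬ y v < m0)).card : ℝ) = W.card := by
    exact_mod_cast card_filter_add_card_filter_not (s := W) (fun v => y v < m0)
  obtain ⟨N, hN⟩ : ∃ N : ℝ, N = ((W.filter (fun v => ¬ y v < m0)).card : ℝ) := ⟨_, rfl⟩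
  have hN1 : (1 - β / 2) * W.card ≤ N := by rw [hN]; linarith
  obtain ⟨Y, hY⟩ : ∃ Y : ℝ, Y = ∑ v ∈ W.filter (fun v => ¬ y v < m0), y v := ⟨_, rfl⟩
  have hY1 : N * m0 ≤ Y := by
    rw [hN, hY, ← nsmul_eq_mul]
    exact card_nsmul_le_sum _ _ _ fun v hv => not_lt.mp (mem_filter.mp hv).2
  have hY2 : Y ≤ (1 - β) * W.card / k := by
    rw [hY]
    refine le_trans ?_ hsum
    exact sum_le_sum_of_subset_of_nonneg (filter_subset _ _) fun v _ _ => hy v
  have hkm : k * m0 * (1 - β / 2) ≤ 1 - β := by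
    have h1 : (1 - β / 2) * W.card * m0 ≤ (1 - β) * W.card / k :=
      (mul_le_mul_of_nonneg_right hN1 hm0).trans (hY1.trans hY2)
    rw [le_div_iff₀ hk'] at h1
    have h2 : (k * m0 * (1 - β / 2)) * W.card ≤ (1 - β) * W.card := by linarith
    exact le_of_mul_le_mul_right h2 hm
  have hc : 0 < 1 - k * m0 := by
    by_contra h
    push Not at h
    have h1 : 1 * (1 - β / 2) ≤ k * m0 * (1 - β / 2) :=
      mul_le_mul_of_nonneg_right (by linarith) (by linarith)
    linarith
  obtain ⟨c, hcc⟩ : ∃ c : ℝ, c = 1 - k * m0 := ⟨_, rfl⟩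
  rw [← hcc] at hc
  refine ⟨fun v => min 1 (max (y v - m0) 0 / c), fun v => ⟨?_, min_le_left _ _⟩, ?_, ?_, ?_⟩
  · exact le_min zero_le_one (div_nonneg (le_max_right _ _) hc.le)
  · have h1 : ∑ v ∈ W, min 1 (max (y v - m0) 0 / c) ≤ ∑ v ∈ W, max (y v - m0) 0 / c :=
      sum_le_sum fun v _ => min_le_right _ _
    refine h1.trans ?_
    rw [← sum_div]
    have h2 : ∑ v ∈ W, max (y v - m0) 0 = Y - N * m0 := by
      have h3 : ∑ v ∈ W, max (y v - m0) 0 =
          ∑ v ∈ W.filter (fun v => ¬ y v < m0), (y v - m0) := by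
        rw [sum_filter]
        refine sum_congr rfl fun v _ => ?_
        by_cases h : y v < m0
        · rw [if_neg (not_not.mpr h)]
          exact max_eq_right (by linarith)
        · rw [if_pos h]
          push Not at h
          exact max_eq_left (by linarith)
      rw [h3, sum_sub_distrib, ← hY, sum_const, nsmul_eq_mul, ← hN]
    rw [h2, div_le_div_iff₀ hc hk']
    have h4 : (1 - β / 2) * W.card * m0 ≤ N * m0 := mul_le_mul_of_nonneg_right hN1 hm0
    rw [le_div_iff₀ hk'] at hY2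
    have h5 : k * m0 ≤ 1 := by linarith
    have h6 : 0 ≤ (1 - k * m0) * (β * W.card) := mul_nonneg (by linarith) (by positivity)
    have h7 : 0 ≤ β * W.card := by positivity
    have h8 : (1 - β / 2) * W.card * m0 * k ≤ N * m0 * k :=
      mul_le_mul_of_nonneg_right h4 hk'.le
    rw [hcc]
    nlinarith
  · refine hqa.trans ?_
    have h1 : W.filter (fun v => y v ≤ m0) ⊆
        W.filter (fun v => min 1 (max (y v - m0) 0 / c) = 0) := by
      intro v hv
      obtain ⟨hv1, hv2⟩ := mem_filter.mp hv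
      refine mem_filter.mpr ⟨hv1, ?_⟩
      rw [max_eq_right (by linarith), zero_div]
      exact min_eq_right zero_le_one
    exact_mod_cast card_le_card h1
  · intro e he hek h1
    by_cases hex : ∃ v ∈ e, 1 ≤ max (y v - m0) 0 / c
    · obtain ⟨v, hv, hv1⟩ := hex
      have h2 : min 1 (max (y v - m0) 0 / c) = 1 := min_eq_left hv1
      calc (1 : ℝ) = min 1 (max (y v - m0) 0 / c) := h2.symm
        _ ≤ ∑ v ∈ e, min 1 (max (y v - m0) 0 / c) :=
          single_le_sum (f := fun v => min 1 (max (y v - m0) 0 / c))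
            (fun v _ => le_min zero_le_one (div_nonneg (le_max_right _ _) hc.le)) hv
    · push Not at hex
      have h2 : ∑ v ∈ e, (y v - m0) / c ≤ ∑ v ∈ e, min 1 (max (y v - m0) 0 / c) := by
        refine sum_le_sum fun v hv => ?_
        rw [min_eq_right (hex v hv).le]
        exact div_le_div_of_nonneg_right (le_max_left _ _) hc.le
      refine le_trans ?_ h2
      rw [← sum_div, le_div_iff₀ hc, one_mul, sum_sub_distrib, sum_const, hek, nsmul_eq_mul, hcc]
      linarith

end Pool.Agent.W160.EM.QNT
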